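import Pool.Agent.U586.MU.BSC
import Pool.Agent.U644.CN.Core

/-!
# MP_d72c81_ag: Beilinson–Soulé vanishing for smooth projective complex varieties and the number of elements of the
motivic cohomology of the point

Q1 asks whether `H^k(X, ℚ(n)) = CH^n(X, 2n - k) ⊗ ℚ` is zero for all smooth projective complex varieties `X`
and all `k < 0`.

Theorem. (A) Let `K` be a finitely generated field of characteristic zero, `n ≥ 1` and `k < 0`. The images of a nonzero
element of `H^k(K, ℚ(n))` under the embeddings of `K` in `ℂ` are continuum many elements of `H^k(ℂ, ℚ(n))`.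

(B) Weight by weight, Q1 holds if and only if the groups `H^k(ℂ, ℚ(n))`, `k < 0`, are countable, if and only if they have
fewer than continuum many elements, if and only if each element of `H^k(K, ℚ(n))`, `k < 0`, `K` finitely generated, has
the same image under some two independent embeddings of `K` in `ℂ`.

Proof. There are continuum many pairwise independent embeddings of `K` in `ℂ`. If `x` has the same image under two
independent embeddings, its two pull-backs to an open subset of a component of `S × S` are equal, where `S` is a smooth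
variety over `ℚ` with function field `K` to which `x` extends. The restriction to `S × {s}` for a closed point `s` shows that
`x` comes, after a finite extension of `K`, from the number field of `s`. So it is zero by Borel's theorem.

The framework of the higher Chow groups (`RatData`, `IsRatTheory`) and the passage from fields to schemes are those of
helper586 (`MP_d72c81_ag/PointAndRealizationSpaces`).
-/

set_option autoImplicit false

open CategoryTheory AlgebraicGeometry MvPolynomial Pool.Agent.Y116.UV Pool.Agent.U586.MU
  Pool.Agent.U644.CN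

universe w

namespace Pool.Agent.Results.MP_d72c81_ag.CountableSuffices

/-- `H^k(X, ℚ(n)) = CH_{s-n}(X, 2n - k) ⊗ ℚ = 0` for the weights `1 ≤ n ≤ N` and all `k < 0`,
`s = dim X`. -/
def Vanishes (T : RatData.{w}) (N : ℕ) (F : Type) [Field F] (X : Sch F) : Prop :=
  ∀ s : ℕ, topologicalKrullDim X.left = s → ∀ n m : ℤ, 1 ≤ n → n ≤ N → 2 * n < m →
    Subsingleton (T.A F (s - n) m X)

/-- A class of schemes of finite type over `ℂ` which contains the point, for example the smooth projective
varieties. -/
structure IsComplexClass (C : Sch ℂ → Prop) : Prop where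
  point : C (aff ℂ ℂ)
  finite : ∀ X, C X → LocallyOfFiniteType X.hom ∧ QuasiCompact X.hom

/-- The class of the smooth proper integral schemes over `ℂ`. -/
def SmoothProper (X : Sch ℂ) : Prop := Smooth X.hom ∧ IsProper X.hom ∧ IsIntegral X.left

/-- `S` has fewer than continuum many elements. -/
def Few (S : Type w) : Prop := ¬ ∃ f : ℂ → S, Function.Injective f

/-- Two more known properties of the groups `H n m L = CH^n(L, m) ⊗ ℚ = H^(2n-m)(L, ℚ(n))` of fields of characteristic zero.

* `borel`: `CH^n(P, m) ⊗ ℚ = 0` for number fields `P`, if `n ≥ 1` and `m > 2 n`;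
* `special`: let `K` be the quotient field of a domain `B` of finite type over `ℚ`, let `i` and `j` be independent
  embeddings of `K` in `L`, and `x` an element of `H n m K` with `i(x) = j(x)`. Then `x` comes, after an extension of `K`,
  from a number field (specialization). -/
structure HasSpecialization (T : RatData.{w}) : Prop where
  borel : ∀ (P : Type) [Field P] [NumberField P] (n m : ℤ), 1 ≤ n → 2 * n < m →
    Subsingleton (T.H n m P)
  special : ∀ (n m : ℤ) (B : Type) [CommRing B] [IsDomain B] [Algebra ℚ B] [Algebra.FiniteType ℚ B]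
    (L : Type) [Field L] [Algebra ℚ L] (i j : FractionRing B →+* L), Independent ℚ i j →
    ∀ x, T.map n m i x = T.map n m j x →
    ∃ (K' P : Type) (_ : Field K') (_ : Field P) (_ : NumberField P) (f : FractionRing B →+* K')
      (g : P →+* K') (y : T.H n m P), T.map n m f x = T.map n m g y

variable {T : RatData.{w}}

lemma complex_smoothProper : IsComplexClass SmoothProper where
  point := by
    have h : IsIso (aff ℂ ℂ).hom := by
      change IsIso (Spec.map (CommRingCat.ofHom (RingHom.id ℂ)))
      rw [CommRingCat.ofHom_id, Spec.map_id]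
      infer_instance
    exact ⟨inferInstance, inferInstance, isIntegral_aff ℂ inferInstance⟩
  finite X h := by
    obtain ⟨h1, h2, -⟩ := h
    exact ⟨inferInstance, inferInstance⟩

/-- From the finitely generated fields to all fields of characteristic zero. -/
lemma all_fields (hT : IsRatTheory T) {n m : ℤ}
    (h : ∀ (B : Type) [CommRing B] [IsDomain B] [Algebra ℚ B] [Algebra.FiniteType ℚ B],
      Subsingleton (T.H n m (FractionRing B))) (L : Type) [Field L] [CharZero L] :
    Subsingleton (T.H n m L) := by
  have h0 : ∀ y : T.H n m L, y = 0 := fun y => by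
    obtain ⟨B, _, _, _, _, f, x, rfl⟩ := hT.small n m L y
    have := h B
    rw [Subsingleton.elim x 0, map_zero]
  exact ⟨fun x y => by rw [h0 x, h0 y]⟩

/-- From the fields to the schemes. -/
lemma schemes_of_fields (hT : IsRatTheory T) (N : ℕ)
    (h : ∀ n m : ℤ, 1 ≤ n → n ≤ N → 2 * n < m → ∀ (L : Type) [Field L] [CharZero L],
      Subsingleton (T.H n m L)) (F : Type) [Field F]
    [CharZero F] (X : Sch F) (hX : FT False X) : Vanishes T N F X := by
  intro s hs n m h1 h2 h3
  refine rat_scheme_of_fields hT F s (s - n) m ?_ X hX hs.le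
  intro B _ _ _ _ e he hes
  have : CharZero (FractionRing B) := by
    have h1 : CharZero B := charZero_of_injective_algebraMap (algebraMap F B).injective
    exact charZero_of_injective_algebraMap (IsFractionRing.injective B (FractionRing B))
  rcases le_or_gt ((e : ℤ) - (s - n)) 0 with h4 | h4
  · exact hT.low _ _ _ h4 (by omega)
  · exact h _ m (by omega) (by omega) (by omega) (FractionRing B)

/-- From the point `Spec ℂ` to the field `ℂ`. -/
lemma field_of_point (hT : IsRatTheory T) (N : ℕ) (h : Vanishes T N ℂ (aff ℂ ℂ)) {n m : ℤ}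
    (h1 : 1 ≤ n) (h2 : n ≤ N) (h3 : 2 * n < m) : Subsingleton (T.H n m ℂ) := by
  have hd : ringKrullDim ℂ = (0 : ℕ) := by
    rw [ringKrullDim_eq_zero_of_field]
    rfl
  have h4 := h 0 (by rw [topDim', hd]) n m h1 h2 h3
  obtain ⟨-, hs⟩ := hT.generic ℂ ℂ 0 hd (((0 : ℕ) : ℤ) - n) m
  rw [sub_sub_cancel] at hs
  have h5 : Subsingleton (T.H n m (FractionRing ℂ)) := by
    have h0 : ∀ y : T.H n m (FractionRing ℂ), y = 0 := fun y => by
      obtain ⟨g, hg, σ, x, rfl⟩ := hs y
      have e : ℂ ≃ₐ[ℂ] Localization.Away g :=
        IsLocalization.atUnit ℂ (Localization.Away g) g (isUnit_iff_ne_zero.mpr hg)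
      obtain ⟨f⟩ := hT.iso ℂ (ft_aff False) ⟨affIso e.symm⟩ (((0 : ℕ) : ℤ) - n) m
      have := f.symm.toEquiv.subsingleton
      rw [Subsingleton.elim x 0, map_zero]
    exact ⟨fun x y => by rw [h0 x, h0 y]⟩
  exact (hT.injective n m (algebraMap ℂ (FractionRing ℂ))).subsingleton

/-- The quotient field of a domain of finite type over `ℚ` is countable. -/
lemma countable_fraction (B : Type) [CommRing B] [IsDomain B] [Algebra ℚ B] [Algebra.FiniteType ℚ B] :
    Countable (FractionRing B) := by
  have h4 : Countable B := by
    obtain ⟨r, f, hf⟩ := Algebra.FiniteType.iff_quotient_mvPolynomial''.mp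
      (inferInstance : Algebra.FiniteType ℚ B)
    have : Countable (MvPolynomial (Fin r) ℚ) := by
      rw [← Cardinal.mk_le_aleph0_iff]
      refine MvPolynomial.cardinalMk_le_max.trans ?_
      simp
    exact hf.countable
  refine Function.Surjective.countable
    (f := fun x : B × nonZeroDivisors B => IsLocalization.mk' (FractionRing B) x.1 x.2) ?_
  intro x
  obtain ⟨a, s, hx⟩ := IsLocalization.exists_mk'_eq (nonZeroDivisors B) x
  exact ⟨(a, s), hx⟩

/-- Pairwise independent embeddings in `ℂ`. -/
lemma family (B : Type) [CommRing B] [IsDomain B] [Algebra ℚ B] [Algebra.FiniteType ℚ B] :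
    ∃ φ : ℂ → (FractionRing B →+* ℂ), ∀ r s, r ≠ s → Independent ℚ (φ r) (φ s) := by
  have := countable_fraction B
  refine exists_family ?_
  rw [Cardinal.mk_complex]
  exact Cardinal.aleph0_lt_continuum

/-- An element with the same image under two independent embeddings is zero. -/
lemma eq_zero (hT : IsRatTheory T) (hS : HasSpecialization T) {n m : ℤ} (h1 : 1 ≤ n)
    (h2 : 2 * n < m) {B : Type} [CommRing B] [IsDomain B] [Algebra ℚ B] [Algebra.FiniteType ℚ B]
    {i j : FractionRing B →+* ℂ} (hij : Independent ℚ i j) {x : T.H n m (FractionRing B)}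
    (hx : T.map n m i x = T.map n m j x) : x = 0 := by
  obtain ⟨K', P, _, _, _, f, g, y, hy⟩ := hS.special n m B ℂ i j hij x hx
  have := hS.borel P n m h1 h2
  rw [Subsingleton.elim y 0, map_zero] at hy
  have : CharZero (FractionRing B) := by
    have h1 : CharZero B := charZero_of_injective_algebraMap (algebraMap ℚ B).injective
    exact charZero_of_injective_algebraMap (IsFractionRing.injective B (FractionRing B))
  exact (map_eq_zero_iff _ (hT.injective n m f)).mp hy

/-- **Theorem.** The smooth proper integral schemes are a class of complex schemes with a point. Let `T` be data with the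
properties of rational higher Chow groups in characteristic zero, including Borel's theorem and specialization.

(A) For `n ≥ 1`, `m > 2 n` and a finitely generated field `K` of characteristic zero, every nonzero element of
`CH^n(K, m) ⊗ ℚ` has continuum many images in `CH^n(ℂ, m) ⊗ ℚ` under the embeddings of `K` in `ℂ`.

(B) Let `C` be a class of schemes of finite type over `ℂ` which contains `Spec ℂ`, and `N` a natural number. Equivalent are,
for the weights `1 ≤ n ≤ N` and the degrees `2 n - m < 0`:
(1) the vanishing for all `X` in `C`;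
(2) `CH^n(ℂ, m) ⊗ ℚ` is countable;
(3) `CH^n(ℂ, m) ⊗ ℚ` has fewer than continuum many elements;
(4) for all finitely generated fields `K` of characteristic zero, every element of `CH^n(K, m) ⊗ ℚ` has the same image under
some two independent embeddings of `K` in `ℂ`. -/
theorem result :
    IsComplexClass SmoothProper ∧
    ∀ T : RatData.{w}, IsRatTheory T → HasSpecialization T →
      (∀ n m : ℤ, 1 ≤ n → 2 * n < m → ∀ (B : Type) [CommRing B] [IsDomain B] [Algebra ℚ B]
        [Algebra.FiniteType ℚ B] (x : T.H n m (FractionRing B)), x ≠ 0 →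
        ∃ y : ℂ → T.H n m ℂ, Function.Injective y ∧
          ∀ r, ∃ φ : FractionRing B →+* ℂ, T.map n m φ x = y r) ∧
      ∀ C : Sch ℂ → Prop, IsComplexClass C → ∀ N : ℕ, List.TFAE [
        ∀ X : Sch ℂ, C X → Vanishes T N ℂ X,
        ∀ n m : ℤ, 1 ≤ n → n ≤ N → 2 * n < m → Countable (T.H n m ℂ),
        ∀ n m : ℤ, 1 ≤ n → n ≤ N → 2 * n < m → Few (T.H n m ℂ),
        ∀ n m : ℤ, 1 ≤ n → n ≤ N → 2 * n < m → ∀ (B : Type) [CommRing B] [IsDomain B]
          [Algebra ℚ B] [Algebra.FiniteType ℚ B] (x : T.H n m (FractionRing B)),
          ∃ i j : FractionRing B →+* ℂ, Independent ℚ i j ∧ T.map n m i x = T.map n m j x] := by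
  refine ⟨complex_smoothProper, fun T hT hS => ⟨?_, fun C hC N => ?_⟩⟩
  · intro n m h1 h2 B _ _ _ _ x hx
    obtain ⟨φ, hφ⟩ := family B
    refine ⟨fun r => T.map n m (φ r) x, fun r s hrs => ?_, fun r => ⟨φ r, rfl⟩⟩
    by_contra hne
    exact hx (eq_zero hT hS h1 h2 (hφ r s hne) hrs)
  · tfae_have 1 → 2 := fun h n m h1 h2 h3 => by
      have := field_of_point hT N (h _ hC.point) h1 h2 h3
      infer_instance
    tfae_have 2 → 3 := by
      rintro h n m h1 h2 h3 ⟨f, hf⟩
      have := h n m h1 h2 h3
      have h4 : Countable ℂ := hf.countable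
      have h5 := Cardinal.mk_le_aleph0 (α := ℂ)
      rw [Cardinal.mk_complex] at h5
      exact absurd Cardinal.aleph0_lt_continuum (not_lt.mpr h5)
    tfae_have 3 → 4 := by
      intro h n m h1 h2 h3 B _ _ _ _ x
      obtain ⟨φ, hφ⟩ := family B
      have h4 : ¬ Function.Injective fun r => T.map n m (φ r) x := fun hinj =>
        h n m h1 h2 h3 ⟨_, hinj⟩
      simp only [Function.Injective, not_forall] at h4
      obtain ⟨r, s, hrs, hne⟩ := h4
      exact ⟨φ r, φ s, hφ r s hne, hrs⟩
    tfae_have 4 → 1 := by
      intro h X hX
      refine schemes_of_fields hT N ?_ ℂ X ⟨(hC.finite X hX).1, (hC.finite X hX).2, fun h => h.elim⟩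
      intro n m h1 h2 h3 L _ _
      refine all_fields hT ?_ L
      intro B _ _ _ _
      have h0 : ∀ x : T.H n m (FractionRing B), x = 0 := fun x => by
        obtain ⟨i, j, hij, hx⟩ := h n m h1 h2 h3 B x
        exact eq_zero hT hS h1 h3 hij hx
      exact ⟨fun x y => by rw [h0 x, h0 y]⟩
    tfae_finish

end Pool.Agent.Results.MP_d72c81_ag.CountableSuffices
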