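import Pool.Agent.U227.VanFix

/-!
# Group actions and the Beilinson-Soulé vanishing conjecture

Let `C` be a `ℚ`-linear category with finite direct sums and split idempotents, for example the category of the
Chow motives over the complex numbers, and let `A m` be additive functors to `ℚ`-vector spaces. The example is,
for `m = (k, j)`, the motivic cohomology `A m (M) = H^k(M, ℚ(j))`, `k < 0`; for the motive `M` of a smooth
projective variety `X` this is the higher Chow group `CH^j(X, 2 j - k) ⊗ ℚ`. Let `P` be the property that the
spaces `A m (M)` with index in a set `I` (some or all pairs `(k, j)` with `k < 0`) are zero.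

Let a finite group `G` act on an object `M`, for example on the motive of a variety `X` on which `G` acts. The
part of `M` fixed by a subgroup `H` is the motive of `X/H`. We show:

1. `P` holds for `X/H` if and only if no irreducible rational representation of `G` which occurs in one of the
   spaces `A m (M)`, `m` in `I`, has a nonzero vector fixed by `H`.
2. If `c` is an involution, then `P` holds for `X` if and only if it does for `X/c` and `X/[G,c]`; if `c`
   is contained in a nonabelian simple subgroup, if and only if for `X/c`; if a subgroup is partitioned into
   subgroups `D_j`, at least two, if and only if for all `X/D_j`; if `G` is commutative, if and only if for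
   all `X/K`, `G/K` cyclic.
3. If `P` does not hold for `X`, but for `X/H` for all subgroups `H` of prime order, then an irreducible
   rational representation in which the elements different from one fix only `0` occurs in one of the spaces,
   the commutative subgroups and the subgroups of order `p q` are cyclic, and `G` has at most one involution.
4. If `P` fails for some motive, then for every finite group `G`, set `F` of subgroups and subgroup `H`:
   the implication `P` for all `X/D`, `D` in `F`, implies `P` for `X/H` is true for all motives with an action
   of `G` if and only if every irreducible rational representation of `G` with a nonzero vector fixed by `H`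
   has a nonzero vector fixed by some `D` in `F`. In particular the quotients by the subgroups of prime
   order decide for `P` if and only if `G` has no irreducible rational representation in which the elements
   different from one fix only `0`.

The group theoretic criteria in 2 and 3 are from the library (`X252`, `X328`).
-/

open CategoryTheory CategoryTheory.Limits Pool.Agent.X252.GA Pool.Agent.X252.SCT
  Pool.Agent.U227.Grp Pool.Agent.U227.Mot Pool.Agent.U227.Ker Pool.Agent.U227.Van

universe v u w

namespace Pool.Agent.Results.MP_d72c81_ag.GroupActions

/-- **Group actions and the Beilinson-Soulé vanishing conjecture.** -/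
theorem result {C : Type u} [Category.{v} C] [Preadditive C] [Linear ℚ C] [IsIdempotentComplete C]
    [HasZeroObject C] [HasFiniteBiproducts C] {κ : Type} (A : κ → C ⥤ ModuleCat.{w} ℚ)
    (h : ∀ m, (A m).Additive) (I : Set κ) :
    (∀ (G : Type) [Group G] [Finite G] (M : C) (a : G →* End M),
      (∀ H : Subgroup G, OnQuotient (VanishIn A I) a H ↔
        ∀ (V : Type) [AddCommGroup V] [Module ℚ V] (ρ : G →* Module.End ℚ V), Irred ρ →
          OccursAt A I a ρ → ¬ HasFixed ρ H) ∧
      QuotientLaws (VanishIn A I M) (OnQuotient (VanishIn A I) a) ∧
      (¬ VanishIn A I M → AtPrimes (OnQuotient (VanishIn A I) a) →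
        (∃ (V : Type) (_ : AddCommGroup V) (_ : Module ℚ V) (ρ : G →* Module.End ℚ V),
          IsFree ρ ∧ OccursAt A I a ρ) ∧ CyclicSubgroups G)) ∧
    ((∃ N : C, ¬ VanishIn A I N) → ∀ (G : Type) [Group G] [Finite G],
      (∀ (F : Set (Subgroup G)) (H : Subgroup G), Detects (VanishIn A I) F H ↔ Covers F H) ∧
      (∀ F : Set (Subgroup G), DetectsAll (VanishIn A I) F ↔ CoversAll F) ∧
      (DetectsAll (VanishIn A I) (primeSubgroups G) ↔ ¬ FixedPointFree G)) :=
  vanishExact A h I

end Pool.Agent.Results.MP_d72c81_ag.GroupActions
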