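import Pool.Agent.U586.MU.BSC

/-!
# MP_d72c81_ag: one projective variety in each bidegree, and one degree

Q1 asks whether `H^k(X, ℚ(n)) = CH^n(X, 2n - k) ⊗ ℚ` is zero for all smooth projective complex varieties `X`
and all `k < 0`.

The theorem: (A) let `X` be ANY projective complex scheme of dimension `d`. In each bidegree separately,
`CH^n(X, m) ⊗ ℚ = 0` if and only if the same group vanishes for ALL schemes of finite type of dimension at
most `d` over ALL fields of characteristic zero. So the vanishing depends only on the dimension: it is true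
for one curve if and only if it is true for all curves, and so on. (B) If the dimension of `X` is at least
`n - 1`, then `CH^n(X, m) ⊗ ℚ = 0` is equivalent to the vanishing of `CH^(n')(Y, m) ⊗ ℚ` for all `n' ≤ n` and
all `Y` of any dimension. (C) The vanishing in the single degree `-J` for one nonempty projective variety
`X_n` in each weight `n` is equivalent to the vanishing in all degrees `k ≤ -J` and all weights for all
schemes of finite type over fields of characteristic zero. For `J = 1`: Q1 is equivalent to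
`H^(-1)(X_n, ℚ(n)) = 0` for all `n ≥ 1`, for an arbitrary sequence of nonempty projective varieties.
-/

set_option autoImplicit false

open CategoryTheory AlgebraicGeometry MvPolynomial Pool.Agent.Y116.UV Pool.Agent.U586.MU

universe w

namespace Pool.Agent.Results.MP_d72c81_ag.OneVariety

/-- The projective space `Proj ℂ[x_0, …, x_r]`. -/
noncomputable def projectiveSpace (r : ℕ) : Scheme :=
  letI := MvPolynomial.gradedAlgebra (σ := Fin (r + 1)) (R := ℂ)
  Proj (homogeneousSubmodule (Fin (r + 1)) ℂ)

/-- `X` is a projective scheme over `ℂ`: proper, and isomorphic to a closed subscheme of a projective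
space `Proj ℂ[x_0, …, x_r]`. -/
structure IsProjective (X : Sch ℂ) : Prop where
  proper : IsProper X.hom
  embeds : ∃ (r : ℕ) (i : X.left ⟶ projectiveSpace r), IsClosedImmersion i

/-- `CH^n(X, m) ⊗ ℚ = 0`, where `CH^n(X, m)` means `CH_{s-n}(X, m)`, `s = dim X`. -/
def Vanishes (T : RatData.{w}) {F : Type} [Field F] (n m : ℤ) (X : Sch F) : Prop :=
  ∀ s : ℕ, topologicalKrullDim X.left = s → Subsingleton (T.A F (s - n) m X)

/-- Two further known properties of the rational higher Chow groups:

* `section_`: let `X` be projective over `ℂ` and `q` at most the dimension of `X`. Then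
  `CH_{j-q}(Spec ℂ, m) ⊗ ℚ` is isomorphic to a subgroup of `CH_j(X, m) ⊗ ℚ` (the map is `x ↦ x × [Z]` for a
  closed subvariety `Z` of dimension `q`; the degree of `c_1(O(1))^q ∩ y` is `deg Z` times a retraction);
* `tame`: `CH^(n-1)(L, m-1) ⊗ ℚ` is isomorphic to a subgroup of `CH^n(L(t), m) ⊗ ℚ` (the map is the
  product with the class of `t`; the residue at `t = 0` is a retraction). -/
structure HasSections (T : RatData.{w}) : Prop where
  section_ : ∀ X : Sch ℂ, IsProjective X → ∀ q : ℕ, (q : WithBot ℕ∞) ≤ topologicalKrullDim X.left →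
    ∀ j m : ℤ, ∃ i : T.A ℂ (j - q) m (aff ℂ ℂ) →+ T.A ℂ j m X, Function.Injective i
  tame : ∀ (n m : ℤ) (L : Type) [Field L] [CharZero L],
    ∃ i : T.H (n - 1) (m - 1) L →+ T.H n m (FractionRing (Polynomial L)), Function.Injective i

variable {T : RatData.{w}}

/-- All fields of characteristic zero: the field `ℂ` suffices. -/
lemma all_fields (hT : IsRatTheory T) {n m : ℤ} (h : Subsingleton (T.H n m ℂ)) (L : Type) [Field L]
    [CharZero L] : Subsingleton (T.H n m L) := by
  have h0 : ∀ y : T.H n m L, y = 0 := fun y => by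
    obtain ⟨B, _, _, _, _, f, x, rfl⟩ := hT.small n m L y
    have h4 : Countable B := by
      obtain ⟨r, f, hf⟩ := Algebra.FiniteType.iff_quotient_mvPolynomial''.mp
        (inferInstance : Algebra.FiniteType ℚ B)
      have : Countable (MvPolynomial (Fin r) ℚ) := by
        rw [← Cardinal.mk_le_aleph0_iff]
        refine MvPolynomial.cardinalMk_le_max.trans ?_
        simp
      exact hf.countable
    have h5 : Countable (FractionRing B) := by
      refine Function.Surjective.countable
        (f := fun x : B × nonZeroDivisors B => IsLocalization.mk' (FractionRing B) x.1 x.2) ?_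
      intro x
      obtain ⟨a, s, hx⟩ := IsLocalization.exists_mk'_eq (nonZeroDivisors B) x
      exact ⟨(a, s), hx⟩
    have h6 : CharZero (FractionRing B) := by
      have h1 : CharZero B := charZero_of_injective_algebraMap (algebraMap ℚ B).injective
      exact charZero_of_injective_algebraMap (IsFractionRing.injective B (FractionRing B))
    obtain ⟨g⟩ := embeds_complex (FractionRing B)
    have := (hT.injective n m g).subsingleton
    rw [Subsingleton.elim x 0, map_zero]
  exact ⟨fun x y => by rw [h0 x, h0 y]⟩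

/-- From the fields to the schemes. -/
lemma scheme_of_fields (hT : IsRatTheory T) {n m : ℤ} {s : ℕ}
    (h : ∀ p : ℕ, p ≤ s → ∀ (L : Type) [Field L] [CharZero L], Subsingleton (T.H (n - p) m L))
    (F : Type) [Field F] [CharZero F] (X : Sch F) (hX : FT False X)
    (hs : topologicalKrullDim X.left = s) : Subsingleton (T.A F (s - n) m X) := by
  refine rat_scheme_of_fields hT F s (s - n) m ?_ X hX hs.le
  intro B _ _ _ _ e he hes
  have : CharZero (FractionRing B) := by
    have h1 : CharZero B := charZero_of_injective_algebraMap (algebraMap F B).injective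
    exact charZero_of_injective_algebraMap (IsFractionRing.injective B (FractionRing B))
  have h2 := h (s - e) (by omega) (FractionRing B)
  have h3 : n - ((s - e : ℕ) : ℤ) = (e : ℤ) - (s - n) := by
    rw [Nat.cast_sub hes]
    ring
  rwa [h3] at h2

/-- From the point `Spec ℂ` to the field `ℂ`. -/
lemma field_of_point (hT : IsRatTheory T) {n m : ℤ} (h4 : Subsingleton (T.A ℂ (0 - n) m (aff ℂ ℂ))) :
    Subsingleton (T.H n m ℂ) := by
  have hd : ringKrullDim ℂ = (0 : ℕ) := by
    rw [ringKrullDim_eq_zero_of_field]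
    rfl
  obtain ⟨-, hs⟩ := hT.generic ℂ ℂ 0 hd (((0 : ℕ) : ℤ) - n) m
  rw [sub_sub_cancel] at hs
  have h5 : Subsingleton (T.H n m (FractionRing ℂ)) := by
    have h0 : ∀ y : T.H n m (FractionRing ℂ), y = 0 := fun y => by
      obtain ⟨g, hg, σ, x, rfl⟩ := hs y
      have e : ℂ ≃ₐ[ℂ] Localization.Away g :=
        IsLocalization.atUnit ℂ (Localization.Away g) g (isUnit_iff_ne_zero.mpr hg)
      obtain ⟨f⟩ := hT.iso ℂ (ft_aff False) ⟨affIso e.symm⟩ (((0 : ℕ) : ℤ) - n) m
      have h6 : Subsingleton (T.A ℂ (((0 : ℕ) : ℤ) - n) m (aff ℂ ℂ)) := h4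
      have := f.symm.toEquiv.subsingleton
      rw [Subsingleton.elim x 0, map_zero]
    exact ⟨fun x y => by rw [h0 x, h0 y]⟩
  exact (hT.injective n m (algebraMap ℂ (FractionRing ℂ))).subsingleton

/-- From a projective scheme to the field `ℂ`. -/
lemma field_of_projective (hT : IsRatTheory T) (hS : HasSections T) {n m : ℤ} {X : Sch ℂ}
    (hX : IsProjective X) {d : ℕ} (hd : topologicalKrullDim X.left = d)
    (h : Subsingleton (T.A ℂ (d - n) m X)) (p : ℕ) (hp : p ≤ d) : Subsingleton (T.H (n - p) m ℂ) := by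
  obtain ⟨i, hi⟩ := hS.section_ X hX (d - p) (by rw [hd]; exact_mod_cast Nat.sub_le d p) (d - n) m
  have h1 := hi.subsingleton
  apply field_of_point hT
  have h2 : (d : ℤ) - n - ((d - p : ℕ) : ℤ) = 0 - (n - p) := by
    rw [Nat.cast_sub hp]
    ring
  rwa [h2] at h1

/-- The shift of the degree and the weight. -/
lemma shift (hT : IsRatTheory T) (hS : HasSections T) {n m : ℤ} (i : ℕ)
    (h : Subsingleton (T.H (n + i) (m + i) ℂ)) : Subsingleton (T.H n m ℂ) := by
  induction i with
  | zero => simpa using h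
  | succ i ih =>
    apply ih
    have h1 := all_fields hT h (FractionRing (Polynomial ℂ))
    obtain ⟨f, hf⟩ := hS.tame (n + (i + 1 : ℕ)) (m + (i + 1 : ℕ)) ℂ
    have h2 := hf.subsingleton
    have h3 : n + ((i + 1 : ℕ) : ℤ) - 1 = n + i := by push_cast; ring
    have h4 : m + ((i + 1 : ℕ) : ℤ) - 1 = m + i := by push_cast; ring
    rwa [h3, h4] at h2

/-- **Theorem.** Let `T` be data with the known properties of rational higher Chow groups in characteristic
zero.
(A) Let `X` be a projective complex scheme of dimension `d`, `m` and `n` integers. Equivalent: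
`CH^n(X, m) ⊗ ℚ = 0`; `CH^(n-p)(ℂ, m) ⊗ ℚ = 0` for `0 ≤ p ≤ d`; the same for all fields of characteristic zero;
`CH^n(Y, m) ⊗ ℚ = 0` for all `Y` of finite type and of dimension at most `d` over fields of characteristic
zero.
(B) Let `X` be a projective complex scheme of dimension `d`, `m ≥ 1` and `1 ≤ n ≤ d + 1`. Then
`CH^n(X, m) ⊗ ℚ = 0` if and only if `CH^(n')(Y, m) ⊗ ℚ = 0` for all `1 ≤ n' ≤ n` and all `Y` of finite type (of
any dimension) over fields of characteristic zero.
(C) Let `J ≥ 0` and let `X_1, X_2, …` be nonempty projective complex schemes. Then `H^(-J)(X_n, ℚ(n)) = 0` for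
all `n ≥ 1` if and only if `H^k(Y, ℚ(n)) = 0` for all `n ≥ 1`, `k ≤ -J` and all `Y` of finite type over fields
of characteristic zero (`H^k(Y, ℚ(n))` means `CH_{s-n}(Y, 2n - k) ⊗ ℚ`, `s = dim Y`). -/
theorem result :
    ∀ T : RatData.{w}, IsRatTheory T → HasSections T →
    (∀ (X : Sch ℂ) (d : ℕ), IsProjective X → topologicalKrullDim X.left = d → ∀ n m : ℤ,
      List.TFAE [
        Vanishes T n m X,
        ∀ p : ℕ, p ≤ d → Subsingleton (T.H (n - p) m ℂ),
        ∀ p : ℕ, p ≤ d → ∀ (L : Type) [Field L] [CharZero L], Subsingleton (T.H (n - p) m L),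
        ∀ (F : Type) [Field F] [CharZero F] (Y : Sch F), LocallyOfFiniteType Y.hom →
          QuasiCompact Y.hom → topologicalKrullDim Y.left ≤ d → Vanishes T n m Y]) ∧
    (∀ (X : Sch ℂ) (d : ℕ), IsProjective X → topologicalKrullDim X.left = d → ∀ (n : ℕ) (m : ℤ),
      1 ≤ n → n ≤ d + 1 → 1 ≤ m →
      (Vanishes T n m X ↔
        ∀ (F : Type) [Field F] [CharZero F] (Y : Sch F), LocallyOfFiniteType Y.hom →
          QuasiCompact Y.hom → ∀ n' : ℤ, 1 ≤ n' → n' ≤ n → Vanishes T n' m Y)) ∧
    (∀ (J : ℕ) (X : ℕ → Sch ℂ) (d : ℕ → ℕ), (∀ n, IsProjective (X n)) →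
      (∀ n, topologicalKrullDim (X n).left = d n) →
      ((∀ n : ℕ, 1 ≤ n → Vanishes T n (2 * n + J) (X n)) ↔
        ∀ (F : Type) [Field F] [CharZero F] (Y : Sch F), LocallyOfFiniteType Y.hom →
          QuasiCompact Y.hom → ∀ n m : ℤ, 1 ≤ n → 2 * n + J ≤ m → Vanishes T n m Y)) := by
  intro T hT hS
  have hft : ∀ {X : Sch ℂ}, IsProjective X → FT False X := fun {X} hX => by
    have := hX.proper
    exact ⟨inferInstance, inferInstance, fun h => h.elim⟩
  refine ⟨fun X d hX hd n m => ?_, fun X d hX hd n m hn hnd hm => ⟨fun h => ?_, fun h => ?_⟩,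
    fun J X d hX hd => ⟨fun h F _ _ Y hY1 hY2 n m hn hm => ?_, fun h n hn => ?_⟩⟩
  · tfae_have 1 → 2 := fun h p hp => field_of_projective hT hS hX hd (h d hd) p hp
    tfae_have 2 → 3 := fun h p hp L _ _ => all_fields hT (h p hp) L
    tfae_have 3 → 4 := fun h F _ _ Y hY1 hY2 hY s hs =>
      scheme_of_fields hT (fun p hp L _ _ => h p (by
        rw [hs] at hY
        have : s ≤ d := by exact_mod_cast hY
        omega) L) F Y ⟨hY1, hY2, fun h => h.elim⟩ hs
    tfae_have 4 → 1 := fun h => h ℂ X (hft hX).1 (hft hX).2 hd.le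
    tfae_finish
  · intro F _ _ Y hY1 hY2 n' h1 h2 s hs
    refine scheme_of_fields hT (fun p hp L _ _ => ?_) F Y ⟨hY1, hY2, fun h => h.elim⟩ hs
    rcases le_or_gt (n' - p) 0 with h3 | h3
    · exact hT.low _ _ _ h3 hm
    · obtain ⟨q, hq⟩ := Int.eq_ofNat_of_zero_le (show (0 : ℤ) ≤ n - (n' - p) by omega)
      have h4 := field_of_projective hT hS hX hd (h d hd) q (by omega)
      rw [← hq, sub_sub_cancel] at h4
      exact all_fields hT h4 L
  · exact h ℂ X (hft hX).1 (hft hX).2 n (by omega) le_rfl
  · intro s hs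
    refine scheme_of_fields hT (fun p hp L _ _ => ?_) F Y ⟨hY1, hY2, fun h => h.elim⟩ hs
    rcases le_or_gt (n - p) 0 with h3 | h3
    · exact hT.low _ _ _ h3 (by omega)
    · obtain ⟨i, hi⟩ := Int.eq_ofNat_of_zero_le (sub_nonneg.mpr
        (show 2 * (n - p) + J ≤ m by omega))
      obtain ⟨N, hN⟩ := Int.eq_ofNat_of_zero_le (show 0 ≤ n - p + i by omega)
      refine all_fields hT (shift hT hS i ?_) L
      have h4 := field_of_projective hT hS (hX N) (hd N) (h N (by omega) _ (hd N)) 0 (Nat.zero_le _)
      have h5 : ((N : ℤ)) - ((0 : ℕ) : ℤ) = n - p + i := by omega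
      have h6 : 2 * (N : ℤ) + J = m + i := by omega
      rwa [h5, h6] at h4
  · exact h ℂ (X n) (hft (hX n)).1 (hft (hX n)).2 n _ (by omega) le_rfl

end Pool.Agent.Results.MP_d72c81_ag.OneVariety
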