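import Pool.Agent.U586.MU.BSC
import Pool.Agent.Q282.UM.Rat

/-!
# MP_d72c81_ag: Beilinson–Soulé vanishing over `ℂ`, the point `Spec ℂ`, and line arrangements over `ℚ`

Q1 asks whether `H^k(X, ℚ(n)) = CH^n(X, 2n - k) ⊗ ℚ` is zero for all smooth projective complex varieties `X`
and all `k < 0`.

The theorem: weight by weight this is equivalent to the vanishing for the point `Spec ℂ` alone; it is
equivalent to the vanishing for all fields of characteristic zero; and it is equivalent to the vanishing of
the groups `H^k(Y, ℚ(n)) = CH_{s-n}(Y, 2n - k) ⊗ ℚ`, `s = dim Y`, `k < 0`, for very special smooth affine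
varieties `Y` over `ℚ`: the integral smooth realization spaces of line arrangements (of matroids of rank
3), and also the integral smooth varieties of families of solutions of the unit equation `x + y = 1` with
given multiplicative relations.
-/

set_option autoImplicit false

open CategoryTheory AlgebraicGeometry MvPolynomial Pool.Agent.Y116.UV Pool.Agent.U586.MU

universe w

namespace Pool.Agent.Results.MP_d72c81_ag.PointAndRealizationSpaces

/-- `X` is the realization space over `ℚ` of a configuration type: the scheme of the configurations of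
points `e ∈ E` of the projective plane, in the coordinates given by a projective frame, for which exactly
the triples in a given set are collinear. -/
def IsRealizationSpace (X : Sch ℚ) : Prop :=
  ∃ (E : Type) (_ : Fintype E) (π : Cfg E), X = π.space ℚ

/-- `X` is the scheme over `ℚ` of the families of units `x_i, y_i`, `i ∈ I`, with `x_i + y_i = 1` which
satisfy given signed binomial equations `∏ u_v ^ p_v = ± ∏ u_v ^ q_v`. -/
def IsUnitScheme (X : Sch ℚ) : Prop :=
  ∃ (I : Type) (_ : Fintype I) (S : Set (SBin (I ⊕ I))), X = uspace ℚ S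

/-- `H^k(X, ℚ(n)) = CH_{s-n}(X, 2n - k) ⊗ ℚ = 0` for the weights `1 ≤ n ≤ N` and all `k < 0`,
`s = dim X`. -/
def Vanishes (T : RatData.{w}) (N : ℕ) (F : Type) [Field F] (X : Sch F) : Prop :=
  ∀ s : ℕ, topologicalKrullDim X.left = s → ∀ n m : ℤ, 1 ≤ n → n ≤ N → 2 * n < m →
    Subsingleton (T.A F (s - n) m X)

/-- `H^k(L, ℚ(n)) = CH^n(L, 2n - k) ⊗ ℚ = 0` for the weights `1 ≤ n ≤ N` and all `k < 0`. -/
def FieldVanishes (T : RatData.{w}) (N : ℕ) (L : Type) [Field L] : Prop :=
  ∀ n m : ℤ, 1 ≤ n → n ≤ N → 2 * n < m → Subsingleton (T.H n m L)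

/-- A class of schemes of finite type over `ℂ` which contains the point, for example the smooth projective
varieties. -/
structure IsComplexClass (C : Sch ℂ → Prop) : Prop where
  point : C (aff ℂ ℂ)
  finite : ∀ X, C X → LocallyOfFiniteType X.hom ∧ QuasiCompact X.hom

/-- The class of the smooth proper integral schemes over `ℂ`. -/
def SmoothProper (X : Sch ℂ) : Prop := Smooth X.hom ∧ IsProper X.hom ∧ IsIntegral X.left

variable {T : RatData.{w}} {Sm : Sch ℚ → Prop}

lemma complex_smoothProper : IsComplexClass SmoothProper where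
  point := by
    have h : IsIso (aff ℂ ℂ).hom := by
      change IsIso (Spec.map (CommRingCat.ofHom (RingHom.id ℂ)))
      rw [CommRingCat.ofHom_id, Spec.map_id]
      infer_instance
    exact ⟨inferInstance, inferInstance, isIntegral_aff ℂ inferInstance⟩
  finite X h := by
    obtain ⟨h1, h2, -⟩ := h
    exact ⟨inferInstance, inferInstance⟩

lemma low_dim (hT : IsRatTheory T) {X : Sch ℚ} (hX : FT False X) (s : ℕ) {j m : ℤ}
    (hs : topologicalKrullDim X.left ≤ s) (hj : (s : ℤ) ≤ j) (hm : 1 ≤ m) :
    Subsingleton (T.A ℚ j m X) :=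
  rat_scheme_of_fields hT ℚ s j m (fun B _ _ _ _ e _ hes => hT.low _ _ _ (by omega) hm) X hX hs

/-- the existence of the dimension -/
lemma exists_dim {X : Sch ℚ} (hX : IsIntegral X.left) (e : ℕ)
    (h : topologicalKrullDim X.left ≤ e) : ∃ s : ℕ, topologicalKrullDim X.left = s ∧ s ≤ e := by
  have hne : Nonempty X.left := inferInstance
  have h2 : topologicalKrullDim X.left ≠ ⊥ := by
    have : Nonempty (TopologicalSpace.IrreducibleCloseds X.left) :=
      ⟨⟨closure {hne.some}, isIrreducible_singleton.closure, isClosed_closure⟩⟩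
    intro hb
    have h0 : (0 : WithBot ℕ∞) ≤ topologicalKrullDim X.left := Order.krullDim_nonneg
    rw [hb] at h0
    exact absurd h0 (by simp)
  obtain ⟨k, hk⟩ := WithBot.ne_bot_iff_exists.mp h2
  rw [← hk] at h
  have h3 : k ≤ (e : ℕ∞) := WithBot.coe_le_coe.mp h
  obtain ⟨s, hs⟩ := ENat.ne_top_iff_exists.mp (ne_top_of_le_ne_top (ENat.natCast_ne_top e) h3)
  refine ⟨s, by rw [← hk, ← hs]; rfl, ?_⟩
  rw [← hs] at h3
  exact_mod_cast h3

/-- All fields: the finitely generated ones suffice. -/
lemma all_fields (hT : IsRatTheory T) (N : ℕ)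
    (h : ∀ (B : Type) [CommRing B] [IsDomain B] [Algebra ℚ B] [Algebra.FiniteType ℚ B],
      FieldVanishes T N (FractionRing B)) (L : Type) [Field L] [CharZero L] :
    FieldVanishes T N L := by
  intro n m h1 h2 h3
  have h0 : ∀ y : T.H n m L, y = 0 := fun y => by
    obtain ⟨B, _, _, _, _, f, x, rfl⟩ := hT.small n m L y
    have := h B n m h1 h2 h3
    rw [Subsingleton.elim x 0, map_zero]
  exact ⟨fun x y => by rw [h0 x, h0 y]⟩

/-- From the fields to the schemes. -/
lemma schemes_of_fields (hT : IsRatTheory T) (N : ℕ)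
    (h : ∀ (L : Type) [Field L] [CharZero L], FieldVanishes T N L) (F : Type) [Field F]
    [CharZero F] (X : Sch F) (hX : FT False X) : Vanishes T N F X := by
  intro s hs n m h1 h2 h3
  refine rat_scheme_of_fields hT F s (s - n) m ?_ X hX hs.le
  intro B _ _ _ _ e he hes
  have : CharZero (FractionRing B) := by
    have h1 : CharZero B := charZero_of_injective_algebraMap (algebraMap F B).injective
    exact charZero_of_injective_algebraMap (IsFractionRing.injective B (FractionRing B))
  rcases le_or_gt ((e : ℤ) - (s - n)) 0 with h4 | h4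
  · exact hT.low _ _ _ h4 (by omega)
  · exact h (FractionRing B) _ m (by omega) (by omega) (by omega)

/-- The passage from the special schemes over `ℚ` to the finitely generated fields. -/
lemma fields_of_special (hT : IsRatTheory T) (N : ℕ) {G : Sch ℚ → Prop}
    (hG : ∀ (P : Sch ℚ → Prop) (e : ℕ), Ext False P → (∀ X : Sch ℚ, FT False X → G X →
      DimLE (e : WithBot ℕ∞) X → Good Sm X → P X) → ∀ X : Sch ℚ, FT False X →
      DimLE (e : WithBot ℕ∞) X → P X)
    (h : ∀ X : Sch ℚ, G X → IsIntegral X.left → Sm X → Vanishes T N ℚ X)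
    (B : Type) [CommRing B] [IsDomain B] [Algebra ℚ B] [Algebra.FiniteType ℚ B] :
    FieldVanishes T N (FractionRing B) := by
  intro n m h1 h2 h3
  obtain ⟨e, he⟩ := exists_krull ℚ B
  have key : ∀ X : Sch ℚ, FT False X → topologicalKrullDim X.left ≤ e →
      Subsingleton (T.A ℚ (e - n) m X) := by
    refine hG (fun X => Subsingleton (T.A ℚ (e - n) m X)) e (hT.ext ℚ _ m) ?_
    rintro Y hY hGY hdY hgood
    rcases hgood with hE | ⟨hI, hS⟩
    · exact hT.empty ℚ Y hE _ m
    · obtain ⟨s, hs, hse⟩ := exists_dim hI e hdY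
      rcases le_or_gt (s : ℤ) (e - n) with hsj | hsj
      · exact low_dim hT hY s hs.le hsj (by omega)
      · have := h Y hGY hI hS s hs (s - (e - n)) m (by omega) (by omega) (by omega)
        rwa [sub_sub_cancel] at this
  have := rat_fields_of_scheme hT ℚ e (e - n) m key B he
  rwa [sub_sub_cancel] at this

/-- From the point `Spec ℂ` to the field `ℂ`. -/
lemma field_of_point (hT : IsRatTheory T) (N : ℕ) (h : Vanishes T N ℂ (aff ℂ ℂ)) :
    FieldVanishes T N ℂ := by
  intro n m h1 h2 h3
  have hd : ringKrullDim ℂ = (0 : ℕ) := by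
    rw [ringKrullDim_eq_zero_of_field]
    rfl
  have h4 := h 0 (by rw [topDim', hd]) n m h1 h2 h3
  obtain ⟨-, hs⟩ := hT.generic ℂ ℂ 0 hd (((0 : ℕ) : ℤ) - n) m
  rw [sub_sub_cancel] at hs
  have h5 : Subsingleton (T.H n m (FractionRing ℂ)) := by
    have h0 : ∀ y : T.H n m (FractionRing ℂ), y = 0 := fun y => by
      obtain ⟨g, hg, σ, x, rfl⟩ := hs y
      have e : ℂ ≃ₐ[ℂ] Localization.Away g :=
        IsLocalization.atUnit ℂ (Localization.Away g) g (isUnit_iff_ne_zero.mpr hg)
      obtain ⟨f⟩ := hT.iso ℂ (ft_aff False) ⟨affIso e.symm⟩ (((0 : ℕ) : ℤ) - n) m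
      have := f.symm.toEquiv.subsingleton
      rw [Subsingleton.elim x 0, map_zero]
    exact ⟨fun x y => by rw [h0 x, h0 y]⟩
  exact (hT.injective n m (algebraMap ℂ (FractionRing ℂ))).subsingleton

/-- **Theorem.** The smooth proper integral schemes are a class of complex schemes with a point, and
smoothness is a generic property of schemes over `ℚ`. Let `T` be data with the properties of rational
higher Chow groups in characteristic zero, `C` a class of schemes of finite type over `ℂ` which contains
`Spec ℂ`, `Sm` a generic property of schemes over `ℚ` and `N` a natural number. The following are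
equivalent (always for the weights `1 ≤ n ≤ N` and the degrees `k < 0`):
(1) `H^k(X, ℚ(n)) = 0` for all `X` in `C`;
(2) `H^k(ℂ, ℚ(n)) = 0`;
(3) `H^k(L, ℚ(n)) = 0` for all fields `L` of characteristic zero;
(4) `H^k(X, ℚ(n)) = 0` for all schemes `X` of finite type over fields of characteristic zero (where
`H^k(X, ℚ(n))` means `CH_{s-n}(X, 2n - k) ⊗ ℚ`, `s = dim X`);
(5) the same for the integral realization spaces over `ℚ` with the property `Sm`;
(6) the same for the integral schemes of solutions of unit equations over `ℚ` with the property `Sm`. -/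
theorem result :
    IsComplexClass SmoothProper ∧ (Generic fun X : Sch ℚ => Smooth X.hom) ∧
    ∀ T : RatData.{w}, IsRatTheory T → ∀ C : Sch ℂ → Prop, IsComplexClass C →
      ∀ Sm : Sch ℚ → Prop, Generic Sm → ∀ N : ℕ, List.TFAE [
        ∀ X : Sch ℂ, C X → Vanishes T N ℂ X,
        FieldVanishes T N ℂ,
        ∀ (L : Type) [Field L] [CharZero L], FieldVanishes T N L,
        ∀ (F : Type) [Field F] [CharZero F] (X : Sch F), LocallyOfFiniteType X.hom →
          QuasiCompact X.hom → Vanishes T N F X,
        ∀ X : Sch ℚ, IsRealizationSpace X → IsIntegral X.left → Sm X → Vanishes T N ℚ X,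
        ∀ X : Sch ℚ, IsUnitScheme X → IsIntegral X.left → Sm X → Vanishes T N ℚ X] := by
  refine ⟨complex_smoothProper, generic_perfect ℚ, fun T hT C hC Sm hS N => ?_⟩
  tfae_have 1 → 2 := fun h => field_of_point hT N (h _ hC.point)
  tfae_have 2 → 3 := by
    intro h
    refine all_fields hT N fun B _ _ _ _ n m h1 h2 h3 => ?_
    have h4 : Countable B := by
      obtain ⟨r, f, hf⟩ := Algebra.FiniteType.iff_quotient_mvPolynomial''.mp
        (inferInstance : Algebra.FiniteType ℚ B)
      have : Countable (MvPolynomial (Fin r) ℚ) := by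
        rw [← Cardinal.mk_le_aleph0_iff]
        refine MvPolynomial.cardinalMk_le_max.trans ?_
        simp
      exact hf.countable
    have h5 : Countable (FractionRing B) := by
      refine Function.Surjective.countable
        (f := fun x : B × nonZeroDivisors B => IsLocalization.mk' (FractionRing B) x.1 x.2) ?_
      intro x
      obtain ⟨a, s, hx⟩ := IsLocalization.exists_mk'_eq (nonZeroDivisors B) x
      exact ⟨(a, s), hx⟩
    have h6 : CharZero (FractionRing B) := by
      have h1 : CharZero B := charZero_of_injective_algebraMap (algebraMap ℚ B).injective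
      exact charZero_of_injective_algebraMap (IsFractionRing.injective B (FractionRing B))
    obtain ⟨f⟩ := embeds_complex (FractionRing B)
    have := h n m h1 h2 h3
    exact (hT.injective n m f).subsingleton
  tfae_have 3 → 4 := fun h F _ _ X hX1 hX2 =>
    schemes_of_fields hT N h F X ⟨hX1, hX2, fun h => h.elim⟩
  tfae_have 4 → 1 := fun h X hX => h ℂ X (hC.finite X hX).1 (hC.finite X hX).2
  tfae_have 4 → 5 := by
    rintro h X ⟨E, _, π, rfl⟩ - -
    exact h ℚ _ (ft_aff False).1 (ft_aff False).2
  tfae_have 4 → 6 := by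
    rintro h X ⟨I, _, S, rfl⟩ - -
    exact h ℚ _ (ft_aff False).1 (ft_aff False).2
  tfae_have 5 → 3 := by
    intro h
    refine all_fields hT N fun B _ _ _ _ =>
      fields_of_special hT N (G := IsRealizationSpace) (Sm := Sm) ?_ h B
    intro P e hP h0 X hX hKX
    exact universal_gen Q282.UM.presents_rat hP (hered_dim False _) hS
      (fun E _ π hKπ hg => h0 _ (ft_aff False) ⟨E, _, π, rfl⟩ hKπ hg) X hX hKX
  tfae_have 6 → 3 := by
    intro h
    refine all_fields hT N fun B _ _ _ _ =>
      fields_of_special hT N (G := IsUnitScheme) (Sm := Sm) ?_ h B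
    intro P e hP h0 X hX hKX
    exact unit_universal_gen Q282.UM.presents_rat hP (hered_dim False _) hS
      (fun I _ S hKπ hg => h0 _ (ft_aff False) ⟨I, _, S, rfl⟩ hKπ hg) X hX hKX
  tfae_finish

end Pool.Agent.Results.MP_d72c81_ag.PointAndRealizationSpaces
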